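import Pool.Agent.Y6.M.Stm

/-! Growth of the pair `x (n + 1)`, `y n` of the chain, driven by `x n` (job EM-GRW). -/

open Set Filter Topology
open scoped ComplexConjugate

set_option autoImplicit false

namespace Pool.Agent.Y975.EM.GRW

open Pool.Agent.Y6.M

lemma al_big {α : ℕ → ℝ} {G : ℕ → ℂ} {b d : ℕ → ℝ} (h : Chn α G b d) (n : ℕ) :
    (10 : ℝ) ^ (40 * (n + 1)) ≤ α n := by
  induction n with
  | zero => simpa using h.A0
  | succ n ih =>
    rw [h.step n]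
    have h1 : (1 : ℝ) ≤ (10 : ℝ) ^ (40 * (n + 1)) := one_le_pow₀ (by norm_num)
    calc (10 : ℝ) ^ (40 * (n + 1 + 1)) ≤ (10 : ℝ) ^ (40 * (n + 1) * 2) :=
          pow_le_pow_right₀ (by norm_num) (by omega)
      _ = ((10 : ℝ) ^ (40 * (n + 1))) ^ 2 := by rw [pow_mul]
      _ ≤ α n ^ 2 := pow_le_pow_left₀ (by positivity) ih 2
      _ ≤ α n ^ (2 * n + 8) := pow_le_pow_right₀ (h1.trans ih) (by omega)

/-- the unit vector -/
lemma unit_mul {w : ℂ} (hw : w ≠ 0) :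
    ‖w / (‖w‖ : ℂ)‖ = 1 ∧ conj w * (w / (‖w‖ : ℂ)) = (‖w‖ : ℂ) := by
  have h0 : (‖w‖ : ℂ) ≠ 0 := by
    simpa using hw
  have h1 : (‖w‖ : ℝ) ≠ 0 := by simpa using hw
  constructor
  · rw [norm_div, Complex.norm_real, Real.norm_eq_abs, abs_of_nonneg (norm_nonneg w), div_self h1]
  · rw [← mul_div_assoc, mul_comm (conj w) w, Complex.mul_conj, Complex.normSq_eq_norm_sq]
    rw [div_eq_iff h0]
    push_cast
    ring

lemma re_ge (z : ℂ) : -‖z‖ ≤ z.re := by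
  have := Complex.abs_re_le_norm z
  exact (abs_le.1 this).1

/-- the direction of the driving -/
lemma drive {G p xn : ℂ} (hw : G * p ≠ 0) (hx : ‖xn - p‖ ≤ ‖p‖ / 10) :
    9 / 10 * (‖G‖ * ‖p‖) ≤ (conj (G * xn) * (G * p / (‖G * p‖ : ℂ))).re := by
  obtain ⟨h1, h2⟩ := unit_mul hw
  set g1 : ℂ := G * p / (‖G * p‖ : ℂ) with hg1
  have e1 : conj (G * xn) * g1 = (‖G * p‖ : ℂ) + conj (G * (xn - p)) * g1 := by
    rw [← h2, ← add_mul, ← map_add]
    congr 2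
    ring
  rw [e1, Complex.add_re, Complex.ofReal_re]
  have h3 := re_ge (conj (G * (xn - p)) * g1)
  have h4 : ‖conj (G * (xn - p)) * g1‖ ≤ ‖G‖ * (‖p‖ / 10) := by
    rw [norm_mul, h1, mul_one, Complex.norm_conj, norm_mul]
    exact mul_le_mul_of_nonneg_left hx (norm_nonneg _)
  rw [norm_mul]
  linarith

/-- lower bound of the derivative -/
lemma key {G p xn X Y D f g : ℂ} {b d : ℝ} (hd : 0 < d) (hdb : d ≤ b) (hw : G * p ≠ 0)
    (hx : ‖xn - p‖ ≤ ‖p‖ / 10) :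
    9 / 10 * (‖G‖ * ‖p‖) * (d * ‖X‖ ^ 2 + b * ‖Y‖ ^ 2) - ‖g‖ * ‖X‖ - ‖Y‖ * (‖D‖ + ‖f‖) ≤
      (conj (G * (d : ℂ) * xn * X + g) * (G * p / (‖G * p‖ : ℂ)) * X +
        conj Y * (G * p / (‖G * p‖ : ℂ)) * (conj G * (b : ℂ) * Y * conj xn - D + f)).re := by
  have h0 := drive hw hx
  obtain ⟨h1, h2⟩ := unit_mul hw
  set g1 : ℂ := G * p / (‖G * p‖ : ℂ) with hg1
  have e1 : conj (G * (d : ℂ) * xn * X + g) * g1 * X +
        conj Y * g1 * (conj G * (b : ℂ) * Y * conj xn - D + f) =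
      ((d * ‖X‖ ^ 2 + b * ‖Y‖ ^ 2 : ℝ) : ℂ) * (conj (G * xn) * g1) + conj g * g1 * X +
        conj Y * g1 * (-D + f) := by
    have hX : ((‖X‖ ^ 2 : ℝ) : ℂ) = X * conj X := by
      rw [Complex.mul_conj, Complex.normSq_eq_norm_sq]
    have hY : ((‖Y‖ ^ 2 : ℝ) : ℂ) = Y * conj Y := by
      rw [Complex.mul_conj, Complex.normSq_eq_norm_sq]
    rw [Complex.ofReal_add, Complex.ofReal_mul, Complex.ofReal_mul, hX, hY]
    simp only [map_add, map_mul, Complex.conj_ofReal]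
    ring
  rw [e1, Complex.add_re, Complex.add_re, Complex.re_ofReal_mul]
  have hb : 0 < b := hd.trans_le hdb
  have hF : 0 ≤ d * ‖X‖ ^ 2 + b * ‖Y‖ ^ 2 := by positivity
  have h3 := mul_le_mul_of_nonneg_left h0 hF
  have h4 := re_ge (conj g * g1 * X)
  have h5 := re_ge (conj Y * g1 * (-D + f))
  have h6 : ‖conj g * g1 * X‖ = ‖g‖ * ‖X‖ := by
    rw [norm_mul, norm_mul, h1, mul_one, Complex.norm_conj]
  have h7 : ‖conj Y * g1 * (-D + f)‖ ≤ ‖Y‖ * (‖D‖ + ‖f‖) := by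
    rw [norm_mul, norm_mul, h1, mul_one, Complex.norm_conj]
    refine mul_le_mul_of_nonneg_left ?_ (norm_nonneg _)
    calc ‖-D + f‖ ≤ ‖-D‖ + ‖f‖ := norm_add_le _ _
      _ = ‖D‖ + ‖f‖ := by rw [norm_neg]
  nlinarith

lemma sum_sq {b d X Y H q : ℝ} (hd : 0 < d) (hdb : d ≤ b) (hq : 0 ≤ q)
    (hH : |H| ≤ 2 * √(b * d) * (X * Y)) (hQ : q ≤ d * X ^ 2 - b * Y ^ 2) :
    √(H ^ 2 + q ^ 2) ≤ d * X ^ 2 + b * Y ^ 2 := by
  have hb : 0 < b := hd.trans_le hdb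
  apply Real.sqrt_le_iff.2
  refine ⟨by positivity, ?_⟩
  have h1 : H ^ 2 ≤ (2 * √(b * d) * (X * Y)) ^ 2 := by
    rw [← sq_abs H]
    exact pow_le_pow_left₀ (abs_nonneg _) hH 2
  have h2 : (2 * √(b * d) * (X * Y)) ^ 2 = 4 * (b * d) * (X * Y) ^ 2 := by
    rw [mul_pow, mul_pow, Real.sq_sqrt (by positivity)]
    ring
  have h3 : q ^ 2 ≤ (d * X ^ 2 - b * Y ^ 2) ^ 2 := pow_le_pow_left₀ hq hQ 2
  nlinarith

lemma absH {X Y g1 : ℂ} {b d : ℝ} (h1 : ‖g1‖ = 1) :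
    |2 * √(b * d) * (conj Y * g1 * X).re| ≤ 2 * √(b * d) * (‖X‖ * ‖Y‖) := by
  rw [abs_mul, abs_of_nonneg (by positivity : (0 : ℝ) ≤ 2 * √(b * d))]
  refine mul_le_mul_of_nonneg_left ?_ (by positivity)
  calc |(conj Y * g1 * X).re| ≤ ‖conj Y * g1 * X‖ := Complex.abs_re_le_norm _
    _ = ‖X‖ * ‖Y‖ := by
      rw [norm_mul, norm_mul, h1, mul_one, Complex.norm_conj, mul_comm]

lemma four_pow (n : ℕ) : 40 * ((n : ℝ) + 2) * (n + 4) ≤ (10 : ℝ) ^ (5 * (n + 1)) := by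
  induction n with
  | zero => norm_num
  | succ n ih =>
    have e : (10 : ℝ) ^ (5 * (n + 1 + 1)) = 10 ^ 5 * 10 ^ (5 * (n + 1)) := by
      rw [← pow_add]
      congr 1
      ring
    rw [e]
    push_cast
    have hn : (0 : ℝ) ≤ n := Nat.cast_nonneg n
    nlinarith

/-- the final estimate of the time -/
lemma time {a : ℝ} {n : ℕ} (ha : (10 : ℝ) ^ (40 * (n + 1)) ≤ a) :
    2 * ((2 * n + 4 : ℝ) * ((2 * n + 8) * Real.log a)) ≤ 8 / 5 * √a * (√(√a))⁻¹ := by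
  have ha0 : 0 < a := lt_of_lt_of_le (by positivity) ha
  set v : ℝ := √(√(√a)) with hv
  have hv0 : 0 < v := by positivity
  have e2 : √(√a) = v ^ 2 := by rw [hv, Real.sq_sqrt (by positivity)]
  have e4 : √a = v ^ 4 := by
    have : √a = (√(√a)) ^ 2 := by rw [Real.sq_sqrt (by positivity)]
    rw [this, e2]
    ring
  have e8 : a = v ^ 8 := by
    have : a = (√a) ^ 2 := by rw [Real.sq_sqrt ha0.le]
    rw [this, e4]
    ring
  have hvb : (10 : ℝ) ^ (5 * (n + 1)) ≤ v := by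
    by_contra hcon
    push Not at hcon
    have : v ^ 8 < ((10 : ℝ) ^ (5 * (n + 1))) ^ 8 := pow_lt_pow_left₀ hcon hv0.le (by norm_num)
    rw [← pow_mul, ← e8] at this
    have e : 5 * (n + 1) * 8 = 40 * (n + 1) := by ring
    rw [e] at this
    linarith
  have h4 := (four_pow n).trans hvb
  rw [e2, e4]
  have e5 : Real.log a = 8 * Real.log v := by
    rw [e8, Real.log_pow]
    norm_num
  rw [e5]
  have h5 : Real.log v ≤ v := (Real.log_le_sub_one_of_pos hv0).trans (by linarith)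
  have e6 : 8 / 5 * v ^ 4 * (v ^ 2)⁻¹ = 8 / 5 * v ^ 2 := by
    field_simp
  rw [e6]
  have hn : (0 : ℝ) ≤ n := Nat.cast_nonneg n
  have h7 : 2 * ((2 * n + 4 : ℝ) * ((2 * n + 8) * (8 * Real.log v))) ≤
      2 * ((2 * n + 4 : ℝ) * ((2 * n + 8) * (8 * v))) := by
    gcongr
  nlinarith

lemma pow_inv (a : ℝ) (k : ℕ) : (a ^ k)⁻¹ ^ 2 = (a ^ (2 * k))⁻¹ := by
  rw [inv_pow, ← pow_mul, mul_comm]

lemma quot {a c : ℝ} (ha : 0 < a) (hc : 0 < c) (k : ℕ) :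
    2 * (3 * c * a⁻¹) / (c * (a ^ k)⁻¹ / 2) = 12 * (a ^ k * a⁻¹) := by
  have hk : a ^ k ≠ 0 := by positivity
  field_simp
  ring

theorem t_GRW : S_ARS → S_GRW := by
  intro hA α G b d hC n s e p x y f g hse hS hUp hxn h1 h2 hQ
  have hal := al_big hC n
  have hα1 : (1 : ℝ) ≤ α n := le_trans (one_le_pow₀ (by norm_num)) hal
  have hα0 : 0 < α n := lt_of_lt_of_le one_pos hα1
  have ha40 : (10 : ℝ) ^ 40 ≤ α (n + 1) :=
    le_trans (pow_le_pow_right₀ (by norm_num) (by omega)) (al_big hC (n + 1))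
  have hstep := hC.step n
  have hstep2 := hC.step (n + 1)
  have hd := hC.dpos n
  have hdb := hC.db n
  have hbd := hC.bd n
  have hlo := hC.lo n
  have hhi := hC.hi (n + 1)
  have hdb1 := hC.db (n + 1)
  have hd1 := hC.dpos (n + 1)
  have hb : 0 < b n := hd.trans_le hdb
  have hU : Uth α n = (√(α n))⁻¹ := rfl
  have hU0 : 0 < Uth α n := by rw [hU]; positivity
  have hP : 0 < ‖p‖ := lt_of_lt_of_le hU0 hUp
  have hG : G n ≠ 0 := by
    intro h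
    rw [h, norm_zero, zero_mul] at hlo
    linarith
  have hw : G n * p ≠ 0 := mul_ne_zero hG (norm_pos_iff.1 hP)
  have hg1 := (unit_mul hw).1
  have hkey := fun t (ht : t ∈ Icc s e) => key (X := x (n + 1) t) (Y := y n t)
    (D := conj (G (n + 1)) * ((b (n + 1) + d (n + 1) : ℝ) : ℂ) * y (n + 1) t * conj (x (n + 2) t))
    (f := f (n + 1) t) (g := g n t) hd hdb hw (hxn t ht)
  set g1 : ℂ := G n * p / (‖G n * p‖ : ℂ) with hg1def
  set a : ℝ := α (n + 1) with ha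
  have ha0 : 0 < a := lt_of_lt_of_le (by positivity) ha40
  have ha1 : 1 ≤ a := le_trans (by norm_num) ha40
  -- the derivative
  have dX := hS.dx (n + 1) le_rfl
  have dY := hS.dy n (by omega)
  set H : ℝ → ℝ := fun t => 2 * √(b n * d n) * (conj (y n t) * g1 * x (n + 1) t).re with hH
  set H' : ℝ → ℝ := fun t => 2 * √(b n * d n) *
    (conj (cY G d (fun m => x m t) n + g n t) * g1 * x (n + 1) t + conj (y n t) * g1 *
      (cX G b d (fun m => x m t) (fun m => y m t) (n + 1) + f (n + 1) t)).re with hH'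
  have dH : ∀ t ∈ Icc s e, HasDerivWithinAt H (H' t) (Icc s e) t := by
    intro t ht
    have e1 := ((dY t ht).star.mul_const g1).mul (dX t ht)
    have e2 := (Complex.reCLM.hasFDerivAt.comp_hasDerivWithinAt t e1).const_mul (2 * √(b n * d n))
    exact e2
  -- constants
  set q : ℝ := d n * εc α (n + 1) ^ 2 / 2 with hq
  have hε : εc α (n + 1) ^ 2 = (a ^ (2 * n + 4))⁻¹ := by
    have : εc α (n + 1) = (a ^ (n + 1 + 1))⁻¹ := rfl
    rw [this, pow_inv]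
    congr 2
  have hq0 : 0 < q := by
    rw [hq, hε]
    positivity
  have hUU : Uth α (n + 1) ^ 2 = a⁻¹ := by
    have : Uth α (n + 1) = (√a)⁻¹ := rfl
    rw [this, inv_pow, Real.sq_sqrt ha0.le]
  have hU1 : Uth α (n + 1) ≤ 1 := by
    have : Uth α (n + 1) = (√a)⁻¹ := rfl
    rw [this]
    exact inv_le_one_of_one_le₀ (Real.one_le_sqrt.2 ha1)
  have hU1' : 0 < Uth α (n + 1) := by
    have : Uth α (n + 1) = (√a)⁻¹ := rfl
    rw [this]
    positivity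
  have hU2 : Uth α (n + 2) ^ 2 = (a ^ (2 * n + 10))⁻¹ := by
    have : Uth α (n + 2) = (√(α (n + 2)))⁻¹ := rfl
    rw [this, inv_pow, Real.sq_sqrt]
    · rw [show n + 2 = n + 1 + 1 from rfl, hstep2]
      congr 2
    · rw [show n + 2 = n + 1 + 1 from rfl, hstep2]
      positivity
  have hφ : φc α (n + 1) = (a ^ (4 * n + 12))⁻¹ := by
    have : φc α (n + 1) = (a ^ (4 * (n + 1) + 8))⁻¹ := rfl
    rw [this]
    congr 2
  -- the drain
  have hdrain : ∀ t ∈ Icc s e, ‖conj (G (n + 1)) * ((b (n + 1) + d (n + 1) : ℝ) : ℂ) * y (n + 1) t *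
      conj (x (n + 2) t)‖ ≤ 6 * (a * (a ^ (2 * n + 10))⁻¹) := by
    intro t ht
    obtain ⟨h3, h4⟩ := h2 t ht
    rw [norm_mul, norm_mul, norm_mul, Complex.norm_conj, Complex.norm_conj, Complex.norm_real,
      Real.norm_eq_abs, abs_of_pos (by linarith : 0 < b (n + 1) + d (n + 1))]
    have h5 : ‖G (n + 1)‖ * (b (n + 1) + d (n + 1)) ≤ 6 * a := by
      have := mul_le_mul_of_nonneg_left hdb1 (norm_nonneg (G (n + 1)))
      nlinarith
    have h6 : ‖y (n + 1) t‖ * ‖x (n + 2) t‖ ≤ (a ^ (2 * n + 10))⁻¹ := by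
      rw [← hU2, sq]
      exact mul_le_mul h4 h3 (norm_nonneg _) ((norm_nonneg _).trans h4)
    calc ‖G (n + 1)‖ * (b (n + 1) + d (n + 1)) * ‖y (n + 1) t‖ * ‖x (n + 2) t‖
        = (‖G (n + 1)‖ * (b (n + 1) + d (n + 1))) * (‖y (n + 1) t‖ * ‖x (n + 2) t‖) := by ring
      _ ≤ 6 * a * (a ^ (2 * n + 10))⁻¹ := by
          exact mul_le_mul h5 h6 (by positivity) (by positivity)
      _ = _ := by ring
  -- lower bound of `H'`
  have hGd : α n * (√(α n))⁻¹ ≤ ‖G n‖ * d n * ‖p‖ := by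
    rw [← hU]
    exact mul_le_mul hlo hUp hU0.le (by positivity)
  have hsq : √(α n) = α n * (√(α n))⁻¹ := by
    have : √(α n) ≠ 0 := by positivity
    field_simp
    exact Real.sq_sqrt hα0.le
  rw [← hsq] at hGd
  have hs1 : 1 ≤ √(α n) := Real.one_le_sqrt.2 hα1
  have herr : 6 * (a * (a ^ (2 * n + 10))⁻¹) + 2 * (a ^ (4 * n + 12))⁻¹ ≤
      (a ^ (2 * n + 4))⁻¹ / 20 := by
    have k1 : a * (a ^ (2 * n + 10))⁻¹ ≤ (a ^ (2 * n + 4))⁻¹ * a⁻¹ := by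
      rw [← mul_inv, ← pow_succ, ← div_eq_mul_inv, div_le_iff₀ (by positivity)]
      have : a ^ (2 * n + 10) = a ^ (2 * n + 4 + 1) * a ^ 5 := by
        rw [← pow_add]
      rw [this, ← mul_assoc, inv_mul_cancel₀ (by positivity), one_mul]
      calc a = a ^ 1 := (pow_one a).symm
        _ ≤ a ^ 5 := pow_le_pow_right₀ ha1 (by norm_num)
    have k2 : (a ^ (4 * n + 12))⁻¹ ≤ (a ^ (2 * n + 4))⁻¹ * a⁻¹ := by
      rw [← mul_inv, ← pow_succ]
      exact inv_anti₀ (by positivity) (pow_le_pow_right₀ ha1 (by omega))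
    have k3 : a⁻¹ ≤ 1 / 160 := by
      rw [inv_le_comm₀ ha0 (by norm_num)]
      linarith
    have k4 : (a ^ (2 * n + 4))⁻¹ * a⁻¹ ≤ (a ^ (2 * n + 4))⁻¹ * (1 / 160) :=
      mul_le_mul_of_nonneg_left k3 (by positivity)
    linarith
  have hlow : ∀ t ∈ Icc s e, 8 / 5 * √(b n * d n) * (‖G n‖ * ‖p‖) *
      (d n * ‖x (n + 1) t‖ ^ 2 + b n * ‖y n t‖ ^ 2) ≤ H' t := by
    intro t ht
    have k0 := hkey t ht
    obtain ⟨h3, h4⟩ := h1 t ht
    have k1 := hdrain t ht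
    have k2 := hS.pf (n + 1) t ht
    have k3 := hS.pg n t ht
    rw [hφ] at k2 k3
    have k4 := hQ t ht
    set D : ℂ := conj (G (n + 1)) * ((b (n + 1) + d (n + 1) : ℝ) : ℂ) * y (n + 1) t *
      conj (x (n + 2) t) with hD
    set Q : ℝ := d n * ‖x (n + 1) t‖ ^ 2 + b n * ‖y n t‖ ^ 2 with hQdef
    have k5 : q ≤ Q := by
      have : 0 ≤ b n * ‖y n t‖ ^ 2 := by positivity
      rw [hQdef]
      linarith
    -- the errors
    have k6 : ‖g n t‖ * ‖x (n + 1) t‖ ≤ (a ^ (4 * n + 12))⁻¹ := by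
      calc ‖g n t‖ * ‖x (n + 1) t‖ ≤ (a ^ (4 * n + 12))⁻¹ * 1 :=
            mul_le_mul k3 (h3.trans hU1) (norm_nonneg _) (by positivity)
        _ = _ := mul_one _
    have k7 : ‖y n t‖ * (‖D‖ + ‖f (n + 1) t‖) ≤
        6 * (a * (a ^ (2 * n + 10))⁻¹) + (a ^ (4 * n + 12))⁻¹ := by
      calc ‖y n t‖ * (‖D‖ + ‖f (n + 1) t‖) ≤ 1 * (6 * (a * (a ^ (2 * n + 10))⁻¹) +
            (a ^ (4 * n + 12))⁻¹) :=
            mul_le_mul (h4.trans hU1) (add_le_add k1 k2) (by positivity) zero_le_one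
        _ = _ := one_mul _
    have k8 : (a ^ (2 * n + 4))⁻¹ / 20 ≤ 1 / 10 * (‖G n‖ * ‖p‖) * Q := by
      have m1 : 1 / 10 * (‖G n‖ * ‖p‖) * q ≤ 1 / 10 * (‖G n‖ * ‖p‖) * Q :=
        mul_le_mul_of_nonneg_left k5 (by positivity)
      have m2 : 1 / 10 * (‖G n‖ * ‖p‖) * q = (‖G n‖ * d n * ‖p‖) * ((a ^ (2 * n + 4))⁻¹ / 20) := by
        rw [hq, hε]
        ring
      have m3 : (1 : ℝ) * ((a ^ (2 * n + 4))⁻¹ / 20) ≤
          (‖G n‖ * d n * ‖p‖) * ((a ^ (2 * n + 4))⁻¹ / 20) :=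
        mul_le_mul_of_nonneg_right (hs1.trans hGd) (by positivity)
      linarith
    have k9 : H' t = 2 * √(b n * d n) *
        (conj (G n * (d n : ℂ) * x n t * x (n + 1) t + g n t) * g1 * x (n + 1) t +
        conj (y n t) * g1 * (conj (G n) * (b n : ℂ) * y n t * conj (x n t) - D +
          f (n + 1) t)).re := rfl
    rw [k9]
    have m4 : 8 / 10 * (‖G n‖ * ‖p‖) * Q ≤
        (conj (G n * (d n : ℂ) * x n t * x (n + 1) t + g n t) * g1 * x (n + 1) t +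
        conj (y n t) * g1 * (conj (G n) * (b n : ℂ) * y n t * conj (x n t) - D +
          f (n + 1) t)).re := by
      refine le_trans ?_ k0
      linarith
    have m5 := mul_le_mul_of_nonneg_left m4 (by positivity : (0 : ℝ) ≤ 2 * √(b n * d n))
    refine le_trans (le_of_eq ?_) m5
    ring
  -- the inequality of `S_ARS`
  have hr0 : 0 < 8 / 5 * √(b n * d n) * (‖G n‖ * ‖p‖) := by
    have : 0 < ‖G n‖ := norm_pos_iff.2 hG
    positivity
  have hF0 : 0 < 3 * d n * a⁻¹ := by positivity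
  have hbd2 : √(b n * d n) ≤ 3 / 2 * d n := by
    apply Real.sqrt_le_iff.2
    refine ⟨by positivity, ?_⟩
    nlinarith
  have hdd : d n ≤ √(b n * d n) := by
    apply Real.le_sqrt_of_sq_le
    nlinarith
  have hfin := hA s e (8 / 5 * √(b n * d n) * (‖G n‖ * ‖p‖)) q (3 * d n * a⁻¹) H H' hse hr0 hq0 hF0
    dH (fun t ht => by
      refine le_trans ?_ (hlow t ht)
      refine mul_le_mul_of_nonneg_left ?_ hr0.le
      exact sum_sq hd hdb hq0.le (absH hg1) (hQ t ht)) (fun t ht => by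
      obtain ⟨h3, h4⟩ := h1 t ht
      refine (absH hg1).trans ?_
      have m1 : ‖x (n + 1) t‖ * ‖y n t‖ ≤ a⁻¹ := by
        rw [← hUU, sq]
        exact mul_le_mul h3 h4 (norm_nonneg _) hU1'.le
      calc 2 * √(b n * d n) * (‖x (n + 1) t‖ * ‖y n t‖) ≤ 2 * (3 / 2 * d n) * a⁻¹ := by
            gcongr
        _ = 3 * d n * a⁻¹ := by ring)
  -- the logarithm
  have hlog : 2 * (3 * d n * a⁻¹) / q + 1 ≤ a ^ (2 * n + 4) := by
    have m1 : 2 * (3 * d n * a⁻¹) / q = 12 * (a ^ (2 * n + 4) * a⁻¹) := by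
      rw [hq, hε]
      exact quot ha0 hd (2 * n + 4)
    rw [m1]
    have m2 : a⁻¹ ≤ 1 / 160 := by
      rw [inv_le_comm₀ ha0 (by norm_num)]
      linarith
    have m3 : a ^ (2 * n + 4) * a⁻¹ ≤ a ^ (2 * n + 4) * (1 / 160) :=
      mul_le_mul_of_nonneg_left m2 (by positivity)
    have m4 : a ≤ a ^ (2 * n + 4) := by
      calc a = a ^ 1 := (pow_one a).symm
        _ ≤ a ^ (2 * n + 4) := pow_le_pow_right₀ ha1 (by omega)
    linarith
  have hlog2 : Real.log (2 * (3 * d n * a⁻¹) / q + 1) ≤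
      (2 * n + 4 : ℝ) * ((2 * n + 8) * Real.log (α n)) := by
    have m1 : 0 < 2 * (3 * d n * a⁻¹) / q + 1 := by positivity
    refine (Real.log_le_log m1 hlog).trans (le_of_eq ?_)
    rw [hstep, Real.log_pow, Real.log_pow]
    push_cast
    ring
  have htime := time hal
  have hr1 : 8 / 5 * √(α n) ≤ 8 / 5 * √(b n * d n) * (‖G n‖ * ‖p‖) := by
    have m1 : ‖G n‖ * d n * ‖p‖ ≤ √(b n * d n) * (‖G n‖ * ‖p‖) := by
      calc ‖G n‖ * d n * ‖p‖ = d n * (‖G n‖ * ‖p‖) := by ring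
        _ ≤ _ := mul_le_mul_of_nonneg_right hdd (by positivity)
    calc 8 / 5 * √(α n) ≤ 8 / 5 * (√(b n * d n) * (‖G n‖ * ‖p‖)) := by linarith
      _ = _ := by ring
  have hδ : δc α n = (√(√(α n)))⁻¹ := rfl
  have h10 : 8 / 5 * √(α n) * (e - s) ≤ 8 / 5 * √(α n) * (√(√(α n)))⁻¹ := by
    calc 8 / 5 * √(α n) * (e - s) ≤ 8 / 5 * √(b n * d n) * (‖G n‖ * ‖p‖) * (e - s) :=
          mul_le_mul_of_nonneg_right hr1 (by linarith)
      _ ≤ _ := by linarith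
  have h11 : 0 < 8 / 5 * √(α n) := by positivity
  have h12 := le_of_mul_le_mul_left h10 h11
  rw [hδ]
  linarith

end Pool.Agent.Y975.EM.GRW
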